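import Pool.Agent.H.MP_35e7b7_an.G

set_option autoImplicit false

namespace Pool.Agent.Results.MP_35e7b7_an.Yes
open Filter Topology

noncomputable def sph (f : ℂ → ℂ) (z : ℂ) : OnePoint ℂ :=
  if meromorphicOrderAt f z < 0 then OnePoint.infty else (f z : OnePoint ℂ)

def Shared (f g : ℂ → ℂ) (a : OnePoint ℂ) : Prop :=
  ∀ z : ℕ → ℂ, Tendsto z atTop (cocompact ℂ) →
    (Tendsto (fun n => sph f (z n)) atTop (𝓝 a) ↔ Tendsto (fun n => sph g (z n)) atTop (𝓝 a))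

theorem result (f : ℂ → ℂ) (hf : MeromorphicNFOn f Set.univ)
    (ht : ¬ ∃ p q : Polynomial ℂ, q ≠ 0 ∧ ∀ z, q.eval z ≠ 0 → f z = p.eval z / q.eval z)
    (a b : ℂ) (hab : a ≠ b) (ha : Shared f (deriv f) (a : OnePoint ℂ))
    (hb : Shared f (deriv f) (b : OnePoint ℂ)) (c : OnePoint ℂ) : Shared f (deriv f) c := by
  obtain ⟨M, e⟩ := Pool.Agent.H.MP_35e7b7_an.mer hf
  have e1 : sph f = Pool.Agent.H.MP_35e7b7_an.sp {z | meromorphicOrderAt f z < 0} f := by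
    funext z; simp [sph, Pool.Agent.H.MP_35e7b7_an.sp]
  have e2 : sph (deriv f) =
      Pool.Agent.H.MP_35e7b7_an.sp {z | meromorphicOrderAt f z < 0} (deriv f) := by
    funext z; simp [sph, Pool.Agent.H.MP_35e7b7_an.sp, e]
  unfold Shared at *
  rw [e1, e2] at ha hb ⊢
  by_cases b0 : b = 0
  · exact Pool.Agent.H.MP_35e7b7_an.fin M hab.symm (b0 ▸ hab) ht
      (by rintro c (rfl | rfl); exacts [hb, ha]) c
  · exact Pool.Agent.H.MP_35e7b7_an.fin M hab b0 ht (by rintro c (rfl | rfl); exacts [ha, hb]) c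

end Pool.Agent.Results.MP_35e7b7_an.Yes
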